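import Pool.Agent.Helper17.RS.Sheet

/-! MP_798d7d, ranks six and seven: row CNT (helper25, after Helper2/R5/FIN1). -/

set_option autoImplicit false

namespace Pool.Helper17.RS

theorem cnt_RS_fin (r : ℕ) (C : ℤ) (N : ℕ) : (RS r C N).Finite := by
  apply ((Set.finite_Icc (-(C * (N : ℤ) ^ 4)) (C * (N : ℤ) ^ 4)).prod
    (Set.finite_Icc (-(C * (N : ℤ) ^ 6)) (C * (N : ℤ) ^ 6))).subset
  intro p hp
  exact ⟨abs_le.mp hp.2.2.1, abs_le.mp hp.2.2.2.1⟩

/-- reducedness -/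
theorem cnt_red {C : ℤ} (hC1 : 1 ≤ C) {N : ℕ} {A B : ℤ} (hA : |A| ≤ C * (N : ℤ) ^ 4)
    (hB : |B| ≤ C * (N : ℤ) ^ 6) (h0 : 4 * A ^ 3 + 27 * B ^ 2 ≠ 0)
    (h1 : ∀ q : ℕ, q.Prime → q ≤ 1000 → ¬ ((q : ℤ) ∣ A ∧ (q : ℤ) ∣ B))
    (h2 : ¬ ∃ q : ℕ, q.Prime ∧ 1000 < q ∧ q ≤ C.toNat * N ∧ (q : ℤ) ∣ A ∧ (q : ℤ) ∣ B) :
    ∀ q : ℕ, q.Prime → ¬ ((q : ℤ) ^ 4 ∣ A ∧ (q : ℤ) ^ 6 ∣ B) := by
  intro q hq ⟨hqA, hqB⟩
  have dA : (q : ℤ) ∣ A := dvd_trans (dvd_pow_self _ (by norm_num)) hqA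
  have dB : (q : ℤ) ∣ B := dvd_trans (dvd_pow_self _ (by norm_num)) hqB
  have hq0 : (0 : ℤ) ≤ (q : ℤ) := Int.natCast_nonneg q
  by_cases hle : q ≤ 1000
  · exact h1 q hq hle ⟨dA, dB⟩
  · apply h2
    refine ⟨q, hq, not_le.mp hle, ?_, dA, dB⟩
    have hCN : (0 : ℤ) ≤ C * (N : ℤ) := by positivity
    have key : (q : ℤ) ≤ C * (N : ℤ) := by
      by_cases hA0 : A = 0
      · have hB0 : B ≠ 0 := by
          intro hB0
          apply h0
          rw [hA0, hB0]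
          norm_num
        have h3 : (q : ℤ) ^ 6 ≤ |B| := Int.le_of_dvd (abs_pos.mpr hB0) ((dvd_abs _ _).mpr hqB)
        have h4 : (q : ℤ) ^ 6 ≤ (C * (N : ℤ)) ^ 6 := by
          refine le_trans (le_trans h3 hB) ?_
          rw [mul_pow]
          apply mul_le_mul_of_nonneg_right _ (by positivity)
          exact le_self_pow₀ hC1 (by norm_num)
        exact le_of_pow_le_pow_left₀ (by norm_num) hCN h4
      · have h3 : (q : ℤ) ^ 4 ≤ |A| := Int.le_of_dvd (abs_pos.mpr hA0) ((dvd_abs _ _).mpr hqA)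
        have h4 : (q : ℤ) ^ 4 ≤ (C * (N : ℤ)) ^ 4 := by
          refine le_trans (le_trans h3 hA) ?_
          rw [mul_pow]
          apply mul_le_mul_of_nonneg_right _ (by positivity)
          exact le_self_pow₀ hC1 (by norm_num)
        exact le_of_pow_le_pow_left₀ (by norm_num) hCN h4
    have hCt : ((C.toNat : ℕ) : ℤ) = C := Int.toNat_of_nonneg (by linarith)
    have : ((q : ℕ) : ℤ) ≤ ((C.toNat * N : ℕ) : ℤ) := by
      rw [Nat.cast_mul, hCt]
      exact key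
    exact Int.ofNat_le.mp this

theorem st_CNT : ST_CNT := by
  classical
  intro r b A B C K δ hC1 hK hbnd hcert hsv hmult
  obtain ⟨N0, hsieve⟩ := hsv C.toNat
  refine ⟨max N0 1, ?_⟩
  intro N hN
  have hN0 : N0 ≤ N := le_trans (le_max_left _ _) hN
  have hN1 : 1 ≤ N := le_trans (le_max_right _ _) hN
  have hNr : (0 : ℝ) < (N : ℝ) := by exact_mod_cast hN1
  set M : ℝ := K * (N : ℝ) ^ δ with hMdef
  have hM0 : 0 < M := by positivity
  -- the bad set
  set b1 := (Box N).filter (fun t => ∃ q : ℕ, q.Prime ∧ 1000 < q ∧ q ≤ C.toNat * N ∧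
    (q : ℤ) ∣ A (yy b t) ∧ (q : ℤ) ∣ B (yy b t)) with hb1
  have hboxc : (Box N).card = N ^ 3 := by
    unfold Box
    rw [Fintype.card_piFinset, Finset.prod_const, Finset.card_range]
    congr 1
  have hb1c : 2 * b1.card ≤ N ^ 3 := by
    have h := hsieve N hN0
    refine le_trans (Nat.mul_le_mul_left 2 (Finset.card_le_card ?_)) h
    intro t ht
    rw [hb1, Finset.mem_filter] at ht
    rw [Finset.mem_filter]
    exact ht
  -- the good set
  set G := Box N \ b1 with hGdef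
  have hGc : (N : ℝ) ^ 3 / 2 ≤ (G.card : ℝ) := by
    have h1 : (Box N).card ≤ G.card + b1.card := by
      have h2 : Box N ⊆ G ∪ b1 := by
        intro t ht
        by_cases ht1 : t ∈ b1
        · exact Finset.mem_union_right _ ht1
        · apply Finset.mem_union_left
          rw [hGdef, Finset.mem_sdiff]
          exact ⟨ht, ht1⟩
      exact (Finset.card_le_card h2).trans (Finset.card_union_le _ _)
    rw [hboxc] at h1
    have h1' : ((N : ℝ) ^ 3) ≤ (G.card : ℝ) + (b1.card : ℝ) := by exact_mod_cast h1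
    have h2' : 2 * (b1.card : ℝ) ≤ (N : ℝ) ^ 3 := by exact_mod_cast hb1c
    linarith
  have hGm : ∀ t ∈ G, t ∈ Box N ∧
      (¬ ∃ q : ℕ, q.Prime ∧ 1000 < q ∧ q ≤ C.toNat * N ∧
        (q : ℤ) ∣ A (yy b t) ∧ (q : ℤ) ∣ B (yy b t)) := by
    intro t ht
    rw [hGdef, Finset.mem_sdiff] at ht
    refine ⟨ht.1, ?_⟩
    intro h
    exact ht.2 (Finset.mem_filter.mpr ⟨ht.1, h⟩)
  -- the map
  set F : (Fin 3 → ℕ) → ℤ × ℤ := fun t => (A (yy b t), B (yy b t)) with hF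
  have himg : G.card ≤ ⌊M⌋₊ * (G.image F).card := by
    apply Finset.card_le_mul_card_image
    intro p _
    apply Nat.le_floor
    refine le_trans ?_ (hmult N hN1 p)
    have hsub : (G.filter fun t => F t = p) ⊆
        (Box N).filter (fun t => A (yy b t) = p.1 ∧ B (yy b t) = p.2) := by
      intro t ht
      obtain ⟨htG, htp⟩ := Finset.mem_filter.mp ht
      have htp' : (A (yy b t), B (yy b t)) = p := htp
      rw [Finset.mem_filter]
      refine ⟨(hGm t htG).1, ?_, ?_⟩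
      · rw [← htp']
      · rw [← htp']
    exact_mod_cast Finset.card_le_card hsub
  have hsub : (↑(G.image F) : Set (ℤ × ℤ)) ⊆ RS r C N := by
    intro p hp
    rw [Finset.mem_coe, Finset.mem_image] at hp
    obtain ⟨t, ht, rfl⟩ := hp
    have hg := hGm t ht
    have hb := hbnd N hN1 t hg.1
    have hc := hcert t
    exact ⟨hc.1, cnt_red hC1 hb.1 hb.2 hc.1 hc.2.1 hg.2, hb.1, hb.2, hc.2.2⟩
  have hcard : (G.image F).card ≤ (RS r C N).ncard := by
    rw [← Set.ncard_coe_finset]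
    exact Set.ncard_le_ncard hsub (cnt_RS_fin r C N)
  have hfin : (N : ℝ) ^ 3 / 2 ≤ M * ((RS r C N).ncard : ℝ) := by
    refine le_trans hGc ?_
    have h1 : (G.card : ℝ) ≤ ((⌊M⌋₊ : ℕ) : ℝ) * ((G.image F).card : ℝ) := by
      exact_mod_cast himg
    refine le_trans h1 ?_
    apply mul_le_mul
    · exact Nat.floor_le hM0.le
    · exact_mod_cast hcard
    · positivity
    · positivity
  have h5 : (N : ℝ) ^ (3 - δ) = (N : ℝ) ^ 3 / (N : ℝ) ^ δ := by
    rw [Real.rpow_sub hNr]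
    norm_cast
  rw [h5]
  have hpos : 0 < (N : ℝ) ^ δ := by positivity
  rw [hMdef] at hfin
  rw [← mul_div_assoc, div_le_iff₀ hpos, one_div, inv_mul_le_iff₀ (by positivity)]
  calc (N : ℝ) ^ 3 = 2 * ((N : ℝ) ^ 3 / 2) := by ring
    _ ≤ 2 * (K * (N : ℝ) ^ δ * ((RS r C N).ncard : ℝ)) := by linarith
    _ = 2 * K * (((RS r C N).ncard : ℝ) * (N : ℝ) ^ δ) := by ring

end Pool.Helper17.RS
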